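import Mathlib
import Pool.Agent.H28.Peetre

set_option autoImplicit false

namespace Pool.Agent.Results.MP_f79668_an.DiagonalNotMonotone

open Polynomial Finset Pool.Agent.H28.Schur Pool.Agent.H28.Peetre

noncomputable def T₀ : ℝ[X] →ₗ[ℝ] ℝ[X] where
  toFun p := C (12 * p.coeff 0 - 4 * p.coeff 2) + C (7 * p.coeff 1) * X + C (2 * p.coeff 2) * X ^ 2
  map_add' p q := Polynomial.funext fun z => by simp; ring
  map_smul' c p := Polynomial.funext fun z => by simp; ring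

lemma T_apply (p : ℝ[X]) : T₀ p = C (12 * p.coeff 0 - 4 * p.coeff 2) + C (7 * p.coeff 1) * X +
    C (2 * p.coeff 2) * X ^ 2 := rfl

lemma Q_eval (k : ℕ) (z : ℝ) : k.factorial * (Qc T₀ k).eval z = 12 * (-z) ^ k +
    7 * k * (-z) ^ (k - 1) * z + k.choose 2 * (-z) ^ (k - 2) * (2 * z ^ 2 - 4) := by
  rw [Qc_eval, T_apply, sub_eq_add_neg X, ← C_neg]
  simp only [coeff_X_add_C_pow]
  simp; ring

noncomputable def B₀ (k : ℕ) : ℝ[X] := if k = 2 then X ^ 2 + C (2 / 5) else X ^ k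

lemma B_deg (k : ℕ) : (B₀ k).degree = k := by
  rw [B₀]; split_ifs with h
  · rw [h]; exact degree_X_pow_add_C two_pos _
  · exact degree_X_pow k

theorem result : ∃ (B : ℕ → ℝ[X]) (M : ℕ) (a : ℕ → ℝ[X]) (a₀ : ℕ → ℝ)
    (T : ℝ[X] →ₗ[ℝ] ℝ[X]) (γ : ℕ → ℝ) (Q : ℕ → ℝ[X]),
    (∀ k, (B k).degree = k) ∧ LinearIndependent ℝ B ∧ Submodule.span ℝ (Set.range B) = ⊤ ∧
    1 ≤ M ∧ a M ≠ 0 ∧
    (∀ k, C (a₀ k) * B k + ∑ j ∈ Icc 1 M, a j * derivative^[j] (B k) = 0) ∧
    (∀ k, T (B k) = γ k • B k) ∧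
    (∀ p : ℝ[X], T p = ∑ k ∈ range (p.natDegree + 1), Q k * derivative^[k] p) ∧
    {k | Q k ≠ 0}.Infinite ∧
    (∀ p : ℝ[X], (p = 0 ∨ ∀ z : ℂ, aeval z p = 0 → z.im = 0) →
      (T p = 0 ∨ ∀ z : ℂ, aeval z (T p) = 0 → z.im = 0)) ∧
    3 ≤ Module.rank ℝ (LinearMap.range T) ∧
    Q 1 ≠ 0 ∧ Q 2 ≠ 0 ∧ (Q 2).degree < (Q 1).degree := by
  let S : Polynomial.Sequence ℝ := ⟨B₀, B_deg⟩
  have q1 : Qc T₀ 1 = C (-5) * X := Polynomial.funext fun z => by
    have := Q_eval 1 z; simp at this ⊢; linarith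
  have q2 : Qc T₀ 2 = C (-2) := Polynomial.funext fun z => by
    have := Q_eval 2 z; simp at this ⊢; linarith
  have hB : ∀ k, T₀ (B₀ k) = (if k = 0 then 12 else if k = 1 then 7 else if k = 2 then 2 else 0 : ℝ)
      • B₀ k := fun k => Polynomial.funext fun z => by
    rcases k with _ | _ | _ | k <;> simp [T_apply, B₀, coeff_X, coeff_one, coeff_X_pow]
    ring
  refine ⟨B₀, 3, fun j => if j = 3 then X ^ 3 else 0, fun k => -k.descFactorial 3, T₀, _, Qc T₀,
    B_deg, S.linearIndependent, S.span fun i => (leadingCoeff_ne_zero.2 (S.ne_zero i)).isUnit,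
    by norm_num, by simp, fun k => ?_, hB, peetre T₀, ?_, fun p hp => ?_, rank3 T₀ (B₀ ·) ?_,
    by simp [q1], by simp [q2], ?_⟩
  · rw [sum_eq_single 3 (fun j _ hj => by simp [hj]) (by simp)]
    simp only [if_true]
    rcases k with _ | _ | _ | k
    · simp [B₀]
    · simp [B₀]
    · simp [B₀, derivative_pow]
    · rw [B₀, if_neg (by omega), iterate_derivative_X_pow_eq_C_mul]
      simp; ring
  · refine (Set.Ioi_infinite 6).mono fun k (hk : 6 < k) (h : Qc T₀ k = 0) => ?_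
    obtain ⟨k, rfl⟩ : ∃ j, k = j + 2 := ⟨k - 2, by omega⟩
    have h1 := Q_eval (k + 2) (-1)
    have h2 := Q_eval (k + 2) (-2)
    have k4 : (5 : ℝ) ≤ k := by exact_mod_cast (by omega : 5 ≤ k)
    rw [h, Nat.cast_choose_two] at h1 h2
    simp [pow_succ] at h1 h2
    nlinarith
  · have := schur ((X + C 3) * (X + C 4)) p (C (12 * p.coeff 0) + C (7 * p.coeff 1) * X +
      C (2 * p.coeff 2) * X ^ 2) (fun z hz => by
        simp only [map_mul, map_add, aeval_X, aeval_C, mul_eq_zero, add_eq_zero_iff_eq_neg] at hz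
        rcases hz with rfl | rfl <;> simp) hp fun k => by
      rw [show (X + C 3) * (X + C 4) = (C 12 + C 7 * X + X ^ 2 : ℝ[X]) by
        simp only [map_ofNat]; ring]
      rcases k with _ | _ | _ | k <;> simp [coeff_X, coeff_X_pow, coeff_C, mul_assoc]
    change RR (T₀ p)
    convert RR_one _ 1 (RR_one _ (-1) this) using 1
    exact Polynomial.funext fun z => by simp [T_apply]; ring
  · simp only [hB]
    have := (S.linearIndependent.comp (fun i : Fin 3 => (i : ℕ)) Fin.val_injective).units_smul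
      ![Units.mk0 12 (by norm_num), Units.mk0 7 (by norm_num), Units.mk0 2 (by norm_num)]
    refine (congrArg (fun v : Fin 3 → ℝ[X] => LinearIndependent ℝ v) (funext fun i => ?_)).mp this
    fin_cases i <;> simp [S, Units.smul_def]
  · rw [q1, q2, degree_C (by norm_num), degree_C_mul_X (by norm_num)]
    simp

end Pool.Agent.Results.MP_f79668_an.DiagonalNotMonotone
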